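import Pool.Agent.H191R4.WG.Main

/-!
# A Banach space which is not WCG although its bidual is WCG

Negative answer to Q1 of MP_064b94_an.

Let `Γ = (ℕ → ℕ)` and let `Φ` be a surjection of `Γ` onto the set of all sequences of finite lists
of elements of `Γ × ℕ`.  The set `T = Γ × ℕ × ℕ` is a forest: `(γ, k, i)` is the parent of
`(γ, k, i + 1)`, and `(γ', k, i')` is the parent of `(γ, k, 0)` if
`Φ γ k = (γ', i') :: Φ γ' k`.  Let `W` be the James tree space of this forest and `X` the closed
subspace of all `w` in `W` such that, for all `γ` and `k`, the sum of `w` over the line `(γ, k, ·)`
is `2 ^ (-k)` times the sum of `w` over the line `(γ, 0, ·)`.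

The bidual of `W` is generated by the unit vectors and the limits of the unit vectors along the
branches; there is a bounded linear extension operator from `X*` to `W*`, so the bidual of `X` is
a continuous linear image of the bidual of `W`, and it is WCG.  The space `X` is not WCG: if `X` is
WCG then it is approximated by countably many weakly compact sets, a diagonal argument
(surjectivity of `Φ`) gives one weakly compact set `K` and `k` such that elements of `K` with large
sums over lines `(γ, k, ·)` can be found above every node of the forest which is on such a line,
and along a branch built from these lines one finds a sequence in `K - K` whose cluster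
points have all tail sums over the branch at least a fixed positive constant.
-/

set_option autoImplicit false
set_option maxSynthPendingDepth 3

namespace Pool.Agent.Results.MP_064b94_an.NotWCGBidualWCG

/-- `Z` is weakly compactly generated: there is a weakly compact subset `K` of `Z` whose closed
linear span is all of `Z`. -/
def IsWCG (Z : Type) [NormedAddCommGroup Z] [NormedSpace ℝ Z] : Prop :=
  ∃ K : Set Z, IsCompact (toWeakSpace ℝ Z '' K) ∧
    (Submodule.span ℝ K).topologicalClosure = ⊤

/-- There is a real Banach space `X` which is not weakly compactly generated, while its bidual
`X**` is weakly compactly generated. -/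
theorem result :
    ∃ (X : Type) (_ : NormedAddCommGroup X) (_ : NormedSpace ℝ X) (_ : CompleteSpace X),
      ¬ IsWCG X ∧ IsWCG (StrongDual ℝ (StrongDual ℝ X)) :=
  Pool.Agent.H191W.final

end Pool.Agent.Results.MP_064b94_an.NotWCGBidualWCG
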